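import Pool.Agent.H51.NimSum

namespace Pool.Agent.Results.MP_02a275_nt.NimSumQ1
open Pool.Agent.H51.RegDefs

/-- Q1 has a negative answer: the termwise nim sum (bitwise xor) of two 2-regular sequences of
non-negative integers need not be 2-regular. -/
theorem result : ∃ a b : ℕ → ℕ,
    IsRegular 2 (fun n => (a n : ℤ)) ∧ IsRegular 2 (fun n => (b n : ℤ)) ∧
      ¬ IsRegular 2 (fun n => ((a n ^^^ b n : ℕ) : ℤ)) :=
  ⟨_, _, Pool.Agent.H51.NimSum.a_regular, Pool.Agent.H51.NimSum.b_regular,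
    Pool.Agent.H51.NimSum.not_regular⟩

end Pool.Agent.Results.MP_02a275_nt.NimSumQ1
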